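import Pool.Agent.EM.Data.Chain
import Pool.Agent.EM.Data.Ends

/-!
# MP_278900_an: a migrating free elastic flow exists

Free elastic flow of closed immersed planar curves (plane `ℂ`, definitions in `Pool/Agent/helper19/EL/Defs.lean`).
There are a smooth immersed closed curve in the open upper half-plane and a time `t` such that the flow which starts
from this curve (it exists for all times) is in the open lower half-plane at the time `t`.

Proof: an explicit family of curves `e(θ, τ)` on 63 time intervals satisfies the equation up to a small residual
(integer arithmetic in the kernel, `Pool/Agent/EM/Ck`).  The distance of a solution to this family is measured by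
`∮ w² ds`, `w` the signed distance to the foot point; an exact identity for its derivative, a quadratic form inequality
with explicit certificate functions and a comparison of the energies show that it stays below the gap
(`Pool/Agent/EM/EM01` to `EM14`).  Existence for all times: `Pool/Agent/helper22/FE`.
-/

set_option autoImplicit false

open scoped ContDiff
open Pool.Agent.helper19.EL

namespace Pool.Agent.Results.MP_278900_an.Migrating

/-- **A migrating free elastic flow of closed planar curves exists.** -/
theorem result : ∃ (c : ℝ → ℂ) (t : ℝ), ContDiff ℝ ∞ c ∧ (∀ u, c (u + 1) = c u) ∧ (∀ u, deriv c u ≠ 0) ∧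
    (∀ u, 0 < (c u).im) ∧ 0 < t ∧
    (∀ T : ℝ, 0 < T → ∃ γ : ℝ → ℝ → ℂ, IsFlow γ T ∧ ∀ u, γ u 0 = c u) ∧
    ∀ (γ : ℝ → ℝ → ℂ) (T : ℝ), IsFlow γ T → t < T → (∀ u, γ u 0 = c u) →
      ∀ u, (γ u t).im < 0 :=
  Pool.Agent.EM.final_nd Pool.Agent.EM.Data.ch62 Pool.Agent.EM.Data.start Pool.Agent.EM.Data.finish

end Pool.Agent.Results.MP_278900_an.Migrating
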