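import Pool.Agent.helper19.EL.Main
import Pool.Agent.helper19.EL.Zero

/-!
# MP_278900_an: no migration below an explicit energy threshold

Free elastic flow of closed immersed planar curves (plane `ℂ`, definitions in
`Pool/Agent/helper19/EL/Defs.lean`).  Let `E` be the elastic energy, `L` the length and `ω` the turning number
(any integer, either orientation) of the initial curve `γ₀`.  If

  `E L ≤ 2 π² (max 1 ω² + 1/10)`

(for `ω = ± 1`: the scale-invariant energy of `γ₀` is at most 10 percent above its minimum `2 π²`, attained by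
the round circle; for `|ω| ≥ 2`: an explicit neighbourhood of the `ω`-fold circle), then every open half-plane
which contains `γ₀` meets `γ_t`, for every `t`.  So no such flow is migrating.

Proof: the scale-invariant excess `V = E L / 2π² - ω²` decreases; the curvature centroid
`P = (∫ k γ ds) / (∫ k ds)` satisfies `|P'| ≤ (R (7/8 - 35/4 V))'`, `R = L / 2π |ω|`; at each time the curve
has points at distance at least `R (1 - X - X √V)`, `X = π √(V/3)`, beyond `P` in each direction.
-/

set_option autoImplicit false

open scoped Real ComplexConjugate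
open Pool.Agent.helper19.EL

namespace Pool.Agent.Results.MP_278900_an.NearCircles

theorem result {γ : ℝ → ℝ → ℂ} {T : ℝ} (h : IsFlow γ T)
    (hE : energy (fun u => γ u 0) * len (fun u => γ u 0) ≤
      2 * π ^ 2 * (max 1 (turning (fun u => γ u 0) ^ 2) + 1 / 10)) :
    ∀ (e : ℂ) (a : ℝ), (∀ u, a < (γ u 0 * conj e).re) →
      ∀ t ∈ Set.Ico 0 T, ∃ u, a < (γ u t * conj e).re := by
  intro e a he t ht
  rcases eq_or_ne e 0 with h0 | h0
  · refine ⟨0, ?_⟩
    have := he 0
    rw [h0, map_zero, mul_zero] at this ⊢
    exact this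
  have hT : 0 < T := lt_of_le_of_lt ht.1 ht.2
  have h00 : (0 : ℝ) ∈ Set.Ico 0 T := ⟨le_rfl, hT⟩
  have hπ := Real.pi_pos
  have hπ2 := pi_sq_lt
  have hk : turning (fun u => γ u 0) = 1 / (2 * π) * iA γ 0 := rfl
  have hEn : energy (fun u => γ u 0) = 1 / 2 * iW γ 0 := rfl
  have hLn : len (fun u => γ u 0) = iL γ 0 := rfl
  have hA : iA γ 0 ≠ 0 := by
    intro hA
    have h1 := h.zero h00 hA
    rw [hk, hA, mul_zero, hEn, hLn] at hE
    norm_num at hE
    nlinarith
  have hω : turning (fun u => γ u 0) ≠ 0 := by
    rw [hk]
    exact mul_ne_zero (by positivity) hA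
  have h1 : 1 ≤ turning (fun u => γ u 0) ^ 2 := by
    rw [hk, mul_pow, div_pow, one_pow, one_div, inv_mul_eq_div, one_le_div (by positivity)]
    have := h.A_ge h00 hA
    nlinarith
  rw [max_eq_right h1] at hE
  exact (main hT h hω hE).1 e a h0 he t ht

end Pool.Agent.Results.MP_278900_an.NearCircles
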